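import Pool.Agent.Helper49_AT3.CNT
import Pool.Agent.Helper20_PP.Rst


/-! Squad AT3, row BRG: Bessel's inequality for the regular elements. -/

open scoped BigOperators

noncomputable section

namespace Pool.Agent.PP.T3.H49

open Pool.Agent.Helper51_AWC Pool.Agent.Helper79_WRA Pool.Agent.PP Pool.Agent.PP.KF
open Pool.Agent.PP.K9 Pool.Agent.PP.K9.H97 Pool.Agent.PP.H75

attribute [local instance] Ideal.Quotient.field

section tools

variable {G : Type} [Group G] {F : Type} [Field F]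

theorem cu_conj {u u' x : G} (h : x * u' * x⁻¹ = u) (t : G) : x⁻¹ * t * x ∈ Cu u' ↔ t ∈ Cu u := by
  rw [Subgroup.mem_centralizer_singleton_iff, Subgroup.mem_centralizer_singleton_iff, ← h]
  constructor
  · intro h1
    have : x * (x⁻¹ * t * x * u') * x⁻¹ = x * (u' * (x⁻¹ * t * x)) * x⁻¹ := by rw [h1]
    calc t * (x * u' * x⁻¹) = x * (x⁻¹ * t * x * u') * x⁻¹ := by group
      _ = x * (u' * (x⁻¹ * t * x)) * x⁻¹ := this
      _ = x * u' * x⁻¹ * t := by group
  · intro h1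
    calc x⁻¹ * t * x * u' = x⁻¹ * (t * (x * u' * x⁻¹)) * x := by group
      _ = x⁻¹ * (x * u' * x⁻¹ * t) * x := by rw [h1]
      _ = u' * (x⁻¹ * t * x) := by group

/-- conjugation as an isomorphism of centralisers -/
def cuEquiv {u u' x : G} (h : x * u' * x⁻¹ = u) : Cu u ≃* Cu u' where
  toFun t := ⟨x⁻¹ * t * x, (cu_conj h _).2 t.2⟩
  invFun t := ⟨x * t * x⁻¹, by
    rw [← cu_conj h]
    have e : x⁻¹ * (x * (t : G) * x⁻¹) * x = t := by group
    rw [e]
    exact t.2⟩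
  left_inv t := by
    apply Subtype.ext
    change x * (x⁻¹ * (t : G) * x) * x⁻¹ = t
    group
  right_inv t := by
    apply Subtype.ext
    change x⁻¹ * (x * (t : G) * x⁻¹) * x = t
    group
  map_mul' s t := by
    apply Subtype.ext
    change x⁻¹ * ((s : G) * t) * x = (x⁻¹ * s * x) * (x⁻¹ * t * x)
    group

theorem bx_cj {u u' x : G} (h : x * u' * x⁻¹ = u) {b : G → F} (hb : Bx (Cu u') b) :
    Bx (Cu u) (cj x b) := by
  refine ⟨?_, ?_⟩
  · intro t ht
    apply hb.supp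
    rw [cu_conj h]
    exact ht
  · exact H20.IsBlk_equiv (cuEquiv h) hb.blk

theorem finsum_mem_const_eq {α : Type} {S : Set α} (hS : S.Finite) (f : α → ℂ) (c : ℂ)
    (h : ∀ x ∈ S, f x = c) : ∑ᶠ x ∈ S, f x = S.ncard * c := by
  rw [finsum_mem_eq_finite_toFinset_sum _ hS, Finset.sum_congr rfl (fun x hx => h x (by
    simpa using hx)), Finset.sum_const, Set.ncard_eq_toFinset_card S hS, nsmul_eq_mul]

theorem finsum_mem_fintype {α β : Type} [AddCommMonoid β] {S : Set α} [Fintype S] (f : α → β) :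
    ∑ᶠ x ∈ S, f x = ∑ k : S, f k := by
  rw [← finsum_set_coe_eq_finsum_mem, finsum_eq_sum_of_fintype]

theorem irr_fin (H : Type) [Group H] [Finite H] : (Irr H).Finite := by
  haveI := Fintype.ofFinite H
  exact irr_finite'

theorem irrE_fin {H : Type} [Group H] [Finite H] (M : Ideal (integralClosure ℤ ℂ)) [M.IsMaximal]
    (b : H → FF M) : (IrrE M b).Finite := (irr_fin H).subset fun _ h => h.1

/-- the number of the conjugates under the inertial group -/
theorem card_conj_le [Finite G] (V : Subgroup G) (γ : G → F)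
    (u : G) (hu : u ∈ V) (S : Finset G)
    (hS : ∀ u' ∈ S, ∃ t ∈ Tg V γ, t * u' * t⁻¹ = u) : S.card ≤ ix V γ := by
  classical
  set C := Subgroup.centralizer (V : Set G) with hC
  set T := Tg V γ with hT
  have hE : ix V γ = Nat.card (T ⧸ C.subgroupOf T) := rfl
  haveI : Fintype (T ⧸ C.subgroupOf T) := Fintype.ofFinite _
  rw [hE, Nat.card_eq_fintype_card, ← Finset.card_univ]
  have h1 : S ⊆ (Finset.univ : Finset (T ⧸ C.subgroupOf T)).image
      (fun q => ((q.out : T) : G) * u * ((q.out : T) : G)⁻¹) := by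
    intro u' hu'
    obtain ⟨t, ht, htu⟩ := hS u' hu'
    rw [Finset.mem_image]
    let t' : T := ⟨t, ht⟩
    let q : T ⧸ C.subgroupOf T := ((t'⁻¹ : T) : T ⧸ C.subgroupOf T)
    refine ⟨q, Finset.mem_univ _, ?_⟩
    have hc : ((t'⁻¹ : T)⁻¹ * q.out) ∈ C.subgroupOf T := by
      rw [← QuotientGroup.eq]
      exact (Quotient.out_eq' q).symm
    rw [Subgroup.mem_subgroupOf] at hc
    set c : T := (t'⁻¹ : T)⁻¹ * q.out with hcd
    have h4 : ((q.out : T) : G) = t⁻¹ * (c : G) := by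
      simp [t', hcd]
    have h3 : u * (c : G) = c * u := Subgroup.mem_centralizer_iff.1 hc u hu
    rw [h4]
    calc t⁻¹ * (c : G) * u * (t⁻¹ * (c : G))⁻¹ = t⁻¹ * ((c : G) * u) * (c : G)⁻¹ * t := by group
      _ = t⁻¹ * (u * (c : G)) * (c : G)⁻¹ * t := by rw [h3]
      _ = t⁻¹ * u * t := by group
      _ = u' := by
        rw [← htu]
        group
  exact le_trans (Finset.card_le_card h1) Finset.card_image_le

end tools

theorem norm_sum_le {κ : Type} [Fintype κ] (v w : κ → ℂ) (c : ℝ)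
    (hv : ∑ k, v k * starRingEnd ℂ (v k) = (c : ℂ)) (hw : ∑ k, w k * starRingEnd ℂ (w k) = (c : ℂ)) :
    ‖∑ k, v k * starRingEnd ℂ (w k)‖ ≤ c := by
  have h1 : ∀ z : κ → ℂ, ∑ k, z k * starRingEnd ℂ (z k) = (c : ℂ) → ∑ k, ‖z k‖ ^ 2 = c := by
    intro z hz
    have h2 : ((∑ k, ‖z k‖ ^ 2 : ℝ) : ℂ) = (c : ℂ) := by
      rw [← hz]
      push_cast
      refine Finset.sum_congr rfl fun k _ => ?_
      rw [Complex.mul_conj, Complex.normSq_eq_norm_sq]
      push_cast
      rfl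
    exact_mod_cast h2
  have h2 := h1 v hv
  have h3 := h1 w hw
  calc ‖∑ k, v k * starRingEnd ℂ (w k)‖ ≤ ∑ k, ‖v k * starRingEnd ℂ (w k)‖ :=
        _root_.norm_sum_le _ _
    _ = ∑ k, ‖v k‖ * ‖w k‖ := by
        refine Finset.sum_congr rfl fun k _ => ?_
        rw [norm_mul, RCLike.norm_conj]
    _ ≤ ∑ k, (‖v k‖ ^ 2 + ‖w k‖ ^ 2) / 2 := by
        refine Finset.sum_le_sum fun k _ => ?_
        nlinarith [sq_nonneg (‖v k‖ - ‖w k‖)]
    _ = c := by
        rw [← Finset.sum_div, Finset.sum_add_distrib, h2, h3]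
        ring

theorem brg (co1 : Co1Stmt) (co2 : Co2Stmt) (fus : FusStmt) (bes : BesStmt) (rgl : RglStmt)
    (loc : LocStmt) : BrgStmt := by
  intro ℓ _ M _ hM G _ _ e V γ hL R hR b d hbd s
  classical
  have hF : GoodF ℓ (FF M) := H50.fld ℓ Fact.out M hM
  haveI : Finite (Irr G) := (irr_fin G).to_subtype
  haveI : Fintype (Irr G) := Fintype.ofFinite _
  let v : {u // u ∈ R} → (Irr G) → ℂ := fun u χ => gv M (Cu (u : G)) u (b u) χ / d u
  have hEl : ∀ u ∈ R, El ℓ u := by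
    intro u hu
    have h1 := ((hR u).1 hu).1
    obtain ⟨n, hn⟩ := hL.tp.pg ⟨u, h1⟩
    exact ⟨n, congrArg Subtype.val hn⟩
  have hd : ∀ u ∈ R, 0 < d u := fun u hu => (hbd u hu).2.1
  -- the norms
  have hnorm : ∀ u : {u // u ∈ R}, ∑ k, v u k * starRingEnd ℂ (v u k) = ((Nat.card V : ℝ) : ℂ) := by
    rintro ⟨u, hu⟩
    obtain ⟨hb, hdg⟩ := hbd u hu
    have h1 := co1 ℓ M hM G u (hEl u hu) (b u) hb.blk.ix
    obtain ⟨b', d', hb', hd', hcard, -⟩ := rgl ℓ M hM G e V γ hL u ((hR u).1 hu)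
    have hbb : b' = b u := (loc ℓ (FF M) hF G e V γ hL u ((hR u).1 hu).1).2 b' (b u) hb' hb
    rw [hbb] at hcard
    have hfin : (IrrE M (fun t : Cu u => b u t)).Finite := irrE_fin M _
    have h2 : ∑ᶠ κ ∈ IrrE M (fun t : Cu u => b u t), κ 1 ^ 2 =
        (Nat.card V : ℂ) * (d u : ℂ) ^ 2 := by
      rw [finsum_mem_const_eq hfin (fun κ => κ 1 ^ 2) ((d u : ℂ) ^ 2) (by
        intro κ hκ
        rw [hdg.2 κ hκ]), hcard]
    rw [h2, finsum_mem_fintype] at h1
    have hd0 : (d u : ℂ) ≠ 0 := by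
      exact_mod_cast (hd u hu).ne'
    have h3 : ∀ k : Irr G, v ⟨u, hu⟩ k * starRingEnd ℂ (v ⟨u, hu⟩ k) =
        (gv M (Cu u) u (b u) k * starRingEnd ℂ (gv M (Cu u) u (b u) k)) / (d u : ℂ) ^ 2 := by
      intro k
      simp only [v, map_div₀, Complex.conj_natCast]
      field_simp
    simp only [h3]
    rw [← Finset.sum_div, h1]
    push_cast
    field_simp
  -- orthogonality
  have horth : ∀ u u' : {u // u ∈ R}, (¬ ∃ t ∈ Tg V γ, t * (u' : G) * t⁻¹ = u) →
      ∑ k, v u k * starRingEnd ℂ (v u' k) = 0 := by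
    rintro ⟨u, hu⟩ ⟨u', hu'⟩ hno
    obtain ⟨hb, hdg⟩ := hbd u hu
    obtain ⟨hb', hdg'⟩ := hbd u' hu'
    have h1 := co2 ℓ M hM G u u' (hEl u hu) (hEl u' hu') (b u) (b u') hb.blk.ix hb'.blk.ix (by
      intro x hx
      rcases hb.blk.dich (bx_cj hx hb'.blk) with h2 | h2
      · exfalso
        apply hno
        exact fus ℓ M hM G e V γ hL u ((hR u).1 hu).1 u' ((hR u').1 hu').1 (b u) (b u') hb hb' x hx
          h2.symm
      · exact h2)
    rw [finsum_mem_fintype] at h1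
    have h3 : ∀ k : Irr G, v ⟨u, hu⟩ k * starRingEnd ℂ (v ⟨u', hu'⟩ k) =
        (gv M (Cu u) u (b u) k * starRingEnd ℂ (gv M (Cu u') u' (b u') k)) /
          ((d u : ℂ) * (d u' : ℂ)) := by
      intro k
      simp only [v, map_div₀, Complex.conj_natCast]
      rw [div_mul_div_comm]
    simp only [h3]
    rw [← Finset.sum_div, h1, zero_div]
  -- row sums
  have hrow : ∀ u : {u // u ∈ R}, ∑ u', ‖∑ k, v u k * starRingEnd ℂ (v u' k)‖ ≤
      ((ix V γ * Nat.card V : ℕ) : ℝ) := by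
    intro u
    let S : Finset {u // u ∈ R} := Finset.univ.filter
      (fun u' => ∃ t ∈ Tg V γ, t * (u' : G) * t⁻¹ = u)
    have h1 : ∑ u', ‖∑ k, v u k * starRingEnd ℂ (v u' k)‖ =
        ∑ u' ∈ S, ‖∑ k, v u k * starRingEnd ℂ (v u' k)‖ := by
      symm
      apply Finset.sum_subset (Finset.subset_univ _)
      intro u' _ hu'
      rw [horth u u' (fun h => hu' (by simpa [S] using h)), norm_zero]
    have h2 : S.card ≤ ix V γ := by
      have h3 : (S.image (fun u' : {u // u ∈ R} => (u' : G))).card = S.card :=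
        Finset.card_image_of_injective _ Subtype.val_injective
      rw [← h3]
      apply card_conj_le V γ (u : G) ((hR u).1 u.2).1
      intro u' hu'
      rw [Finset.mem_image] at hu'
      obtain ⟨w, hw, rfl⟩ := hu'
      simpa [S] using hw
    rw [h1]
    calc ∑ u' ∈ S, ‖∑ k, v u k * starRingEnd ℂ (v u' k)‖ ≤ ∑ u' ∈ S, (Nat.card V : ℝ) :=
          Finset.sum_le_sum fun u' _ => norm_sum_le (v u) (v u') _ (hnorm u) (hnorm u')
      _ = S.card * (Nat.card V : ℝ) := by rw [Finset.sum_const, nsmul_eq_mul]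
      _ ≤ (ix V γ : ℝ) * (Nat.card V : ℝ) := by
          apply mul_le_mul_of_nonneg_right _ (by positivity)
          exact_mod_cast h2
      _ = ((ix V γ * Nat.card V : ℕ) : ℝ) := by push_cast; ring
  have h := bes {u // u ∈ R} (Irr G) v _ (by positivity) hrow (fun k => s k)
  rw [finsum_mem_fintype, ← Finset.sum_coe_sort]
  have h4 : ∀ u : {u // u ∈ R}, ∑ᶠ χ ∈ Irr G, s χ * (gv M (Cu (u : G)) u (b u) χ / d u) =
      ∑ k : Irr G, s k * v u k := fun u => finsum_mem_fintype _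
  simp only [h4]
  exact h

end Pool.Agent.PP.T3.H49
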