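import Pool.Agent.AT3.Stmts2

/-! Squad AT3, row CNT: the number of the regular elements. -/

open scoped BigOperators

noncomputable section

namespace Pool.Agent.PP.T3.H49

open Pool.Agent.Helper51_AWC Pool.Agent.Helper79_WRA Pool.Agent.PP Pool.Agent.PP.KF
open Pool.Agent.PP.K9 Pool.Agent.PP.K9.H97 Pool.Agent.PP.H75

theorem cen_le_Tg {G : Type} [Group G] [Finite G] {F : Type} [Field F] {V : Subgroup G} {γ : G → F}
    (hγ : Bx (Subgroup.centralizer (V : Set G)) γ) :
    Subgroup.centralizer (V : Set G) ≤ Tg V γ := by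
  intro c hc
  refine Subgroup.mem_inf.2 ⟨?_, ?_⟩
  · rw [Subgroup.mem_normalizer_iff]
    intro h
    constructor
    · intro hh
      have := (Subgroup.mem_centralizer_iff.1 hc) h hh
      rw [← this, mul_inv_cancel_right]
      exact hh
    · intro hh
      have := (Subgroup.mem_centralizer_iff.1 hc) _ hh
      have e : h = c * h * c⁻¹ := by
        have e2 : c * h * c⁻¹ * c = c * (c * h * c⁻¹) := this
        have e3 : c * h = c * (c * h * c⁻¹) := by
          rw [← e2]
          group
        exact mul_left_cancel e3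
      rw [e]
      exact hh
  · exact (cj_eq_iff _ _).1 (hγ.ix.inv hc)

theorem arith_cnt (ℓ v E r : ℕ) (h5 : 5 ≤ ℓ) (h3 : 3 * E ≤ ℓ) (hE : 1 ≤ E) (hv : 1 ≤ v)
    (h : ℓ * v - 1 ≤ r + (E - 1) * (v - 1)) : 2 * (E * v) < r := by
  obtain ⟨E, rfl⟩ : ∃ E', E = E' + 1 := ⟨E - 1, by omega⟩
  obtain ⟨v, rfl⟩ : ∃ v', v = v' + 1 := ⟨v - 1, by omega⟩
  simp only [Nat.add_sub_cancel] at h
  have h6 : ℓ * (v + 1) ≤ r + E * v + 1 := by
    have : 1 ≤ ℓ * (v + 1) := Nat.one_le_iff_ne_zero.2 (mul_ne_zero (by omega) (by omega))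
    omega
  rcases Nat.eq_zero_or_pos E with h0 | h0
  · subst h0
    nlinarith
  · nlinarith

theorem cnt : CntStmt := by
  intro ℓ hℓ F _ hF G _ _ e V γ hL hV h5 h3
  classical
  have hp : ℓ.Prime := hℓ.out
  set C := Subgroup.centralizer (V : Set G) with hC
  set T := Tg V γ with hT
  have hCT : C ≤ T := cen_le_Tg hL.gam
  have hE : ix V γ = Nat.card (T ⧸ C.subgroupOf T) := rfl
  set E := ix V γ with hEd
  have hE1 : 1 ≤ E := by
    rw [hE]
    exact Nat.card_pos
  haveI := Fintype.ofFinite G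
  haveI : Fintype (T ⧸ C.subgroupOf T) := Fintype.ofFinite _
  -- the order of V
  obtain ⟨a, ha⟩ := (IsPGroup.iff_card.1 hL.tp.pg)
  have ha0 : a ≠ 0 := by
    intro h
    rw [h, pow_zero] at ha
    exact hV (Subgroup.card_eq_one.1 ha)
  obtain ⟨b, rfl⟩ := Nat.exists_eq_succ_of_ne_zero ha0
  set v := ℓ ^ b with hv
  have hVv : Nat.card V = ℓ * v := by rw [ha, hv, Nat.succ_eq_add_one, pow_succ, mul_comm]
  have hv1 : 1 ≤ v := Nat.one_le_iff_ne_zero.2 (pow_ne_zero _ hp.ne_zero)
  -- the fixed subgroups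
  let W : (T ⧸ C.subgroupOf T) → Subgroup G := fun q => V ⊓ Cu ((q.out : T) : G)
  have hW : ∀ q, q ≠ ((1 : T) : T ⧸ C.subgroupOf T) → Nat.card (W q) ≤ v := by
    intro q hq
    have h1 : Nat.card (W q) ∣ ℓ ^ (b + 1) := by
      rw [← Nat.succ_eq_add_one, ← ha]
      exact Subgroup.card_dvd_of_le inf_le_left
    obtain ⟨i, hi, hi2⟩ := (Nat.dvd_prime_pow hp).1 h1
    rw [hi2, hv]
    rcases Nat.lt_or_ge i (b + 1) with h2 | h2
    · exact Nat.pow_le_pow_right hp.pos (by omega)
    · exfalso
      have h3 : i = b + 1 := le_antisymm hi h2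
      have h4 : Nat.card (W q) = Nat.card V := by rw [hi2, h3, ha]
      have h5 : W q = V := Subgroup.eq_of_le_of_card_ge inf_le_left h4.ge
      apply hq
      have h6 : ((q.out : T) : G) ∈ C := by
        refine Subgroup.mem_centralizer_iff.2 ?_
        intro w hw
        have h7 : w ∈ W q := by
          rw [h5]
          exact hw
        have h8 := (Subgroup.mem_inf.1 h7).2
        exact (Subgroup.mem_centralizer_iff.1 h8 _ rfl).symm
      have h9 : ((q.out : T) : T ⧸ C.subgroupOf T) = ((1 : T) : T ⧸ C.subgroupOf T) := by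
        rw [QuotientGroup.eq, mul_one, Subgroup.inv_mem_iff, Subgroup.mem_subgroupOf]
        exact h6
      rw [← h9]
      exact (Quotient.out_eq' q).symm
  -- the sets
  let A : Finset G := Finset.univ.filter (fun u => u ∈ V ∧ u ≠ 1)
  let R : Finset G := Finset.univ.filter (fun u => Rg V γ u)
  let S : Finset G := (Finset.univ.filter (fun q : T ⧸ C.subgroupOf T =>
    q ≠ ((1 : T) : T ⧸ C.subgroupOf T))).biUnion
      (fun q => Finset.univ.filter (fun u => u ∈ W q ∧ u ≠ 1))
  have hR : {u | Rg V γ u}.ncard = R.card := by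
    rw [← Set.ncard_coe_finset]
    congr 1
    ext u
    simp [R]
  have cardsub : ∀ H : Subgroup G, (Finset.univ.filter (fun u => u ∈ H ∧ u ≠ 1)).card
      = Nat.card H - 1 := by
    intro H
    have h1 : (Finset.univ.filter (fun u => u ∈ H ∧ u ≠ 1))
        = (Finset.univ.filter (fun u : G => u ∈ H)).erase 1 := by
      ext u
      simp only [Finset.mem_filter, Finset.mem_univ, true_and, Finset.mem_erase, ne_eq]
      tauto
    rw [h1, Finset.card_erase_of_mem (by simp [H.one_mem])]
    congr 1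
    rw [← Set.ncard_coe_finset]
    have : ((Finset.univ.filter (fun u : G => u ∈ H) : Finset G) : Set G) = (H : Set G) := by
      ext u
      simp
    rw [this, Set.ncard_eq_toFinset_card' , ← Nat.card_eq_card_toFinset]
    rfl
  have hA : A.card = Nat.card V - 1 := cardsub V
  have hsub : A ⊆ R ∪ S := by
    intro u hu
    simp only [A, Finset.mem_filter, Finset.mem_univ, true_and] at hu
    by_cases hr : Rg V γ u
    · exact Finset.mem_union_left _ (by simp [R, hr])
    · apply Finset.mem_union_right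
      have h1 : ¬ (Tg V γ ⊓ Cu u ≤ Subgroup.centralizer (V : Set G)) := by
        intro h
        exact hr ⟨hu.1, hu.2, h⟩
      rw [SetLike.not_le_iff_exists] at h1
      obtain ⟨t, ht, htC⟩ := h1
      obtain ⟨htT, htu⟩ := Subgroup.mem_inf.1 ht
      let t' : T := ⟨t, htT⟩
      let q : T ⧸ C.subgroupOf T := (t' : T ⧸ C.subgroupOf T)
      have hq : q ≠ ((1 : T) : T ⧸ C.subgroupOf T) := by
        intro h
        rw [QuotientGroup.eq, mul_one, Subgroup.inv_mem_iff, Subgroup.mem_subgroupOf] at h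
        exact htC h
      have hc : ((t' : T)⁻¹ * q.out) ∈ C.subgroupOf T := by
        rw [← QuotientGroup.eq]
        exact (Quotient.out_eq' q).symm
      rw [Subgroup.mem_subgroupOf] at hc
      simp only [S, Finset.mem_biUnion, Finset.mem_filter, Finset.mem_univ, true_and]
      refine ⟨q, hq, ?_, hu.2⟩
      refine Subgroup.mem_inf.2 ⟨hu.1, ?_⟩
      rw [Subgroup.mem_centralizer_iff]
      intro w hw
      rw [Set.mem_singleton_iff] at hw
      rw [hw]
      have h2 : u * t = t * u := Subgroup.mem_centralizer_iff.1 htu u rfl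
      have h3 := Subgroup.mem_centralizer_iff.1 hc u hu.1
      have h4 : ((q.out : T) : G) = t * (((t' : T)⁻¹ * q.out : T) : G) := by
        simp [t']
      rw [h4]
      calc t * (((t' : T)⁻¹ * q.out : T) : G) * u
          = t * ((((t' : T)⁻¹ * q.out : T) : G) * u) := by group
        _ = t * (u * (((t' : T)⁻¹ * q.out : T) : G)) := by rw [h3]
        _ = (t * u) * (((t' : T)⁻¹ * q.out : T) : G) := by group
        _ = (u * t) * (((t' : T)⁻¹ * q.out : T) : G) := by rw [h2]
        _ = u * (t * (((t' : T)⁻¹ * q.out : T) : G)) := by group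
  have hS : S.card ≤ (E - 1) * (v - 1) := by
    have h1 : S.card ≤ ∑ q ∈ (Finset.univ.filter (fun q : T ⧸ C.subgroupOf T =>
        q ≠ ((1 : T) : T ⧸ C.subgroupOf T))), (v - 1) := by
      refine le_trans Finset.card_biUnion_le (Finset.sum_le_sum fun q hq => ?_)
      rw [cardsub]
      have := hW q (by simpa using hq)
      omega
    rw [Finset.sum_const, smul_eq_mul] at h1
    have h2 : (Finset.univ.filter (fun q : T ⧸ C.subgroupOf T =>
        q ≠ ((1 : T) : T ⧸ C.subgroupOf T))).card = E - 1 := by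
      rw [Finset.filter_ne', Finset.card_erase_of_mem (Finset.mem_univ _), Finset.card_univ, hE,
        Nat.card_eq_fintype_card]
    rw [h2] at h1
    exact h1
  have hfin : Nat.card V - 1 ≤ R.card + (E - 1) * (v - 1) := by
    rw [← hA]
    exact le_trans (Finset.card_le_card hsub) (le_trans (Finset.card_union_le _ _) (by omega))
  rw [hR, hVv]
  rw [hVv] at hfin
  have hgoal : 2 * (E * v) < R.card := arith_cnt ℓ v E R.card h5 h3 hE1 hv1 hfin
  calc 2 * (E * (ℓ * v)) = ℓ * (2 * (E * v)) := by ring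
    _ < ℓ * R.card := Nat.mul_lt_mul_of_pos_left hgoal hp.pos

end Pool.Agent.PP.T3.H49
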