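import Pool.Agent.Helper49_AT3.BRG

/-! Squad AT3, row LBE: the bound `2 l(B) < ℓ`. -/

open scoped BigOperators

noncomputable section

namespace Pool.Agent.PP.T3.H49

open Pool.Agent.Helper51_AWC Pool.Agent.Helper79_WRA Pool.Agent.PP Pool.Agent.PP.KF
open Pool.Agent.PP.K9 Pool.Agent.PP.K9.H97 Pool.Agent.PP.H75

attribute [local instance] Ideal.Quotient.field

theorem lbe (prm : PrmStmt) (fix : FixStmt) (nst : NstStmt) (lrk : LrkStmt) (rgl : RglStmt)
    (rin : RinStmt) (cgz : CgzStmt) (brg : BrgStmt) (cnt : CntStmt) (ari : AriStmt)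
    (lsb : LsbStmt) (nz : K9.NzStmt) : LbeStmt := by
  intro ℓ hℓ M _ hM G _ _ e V γ hL hV h5 h3
  classical
  have hp : ℓ.Prime := hℓ.out
  have hF : GoodF ℓ (FF M) := H50.fld ℓ Fact.out M hM
  have hE1 : 1 ≤ ix V γ := by
    have : ix V γ = Nat.card (Tg V γ ⧸ (Subgroup.centralizer (V : Set G)).subgroupOf (Tg V γ)) := rfl
    rw [this]
    exact Nat.card_pos
  have hEl : ix V γ + 1 < ℓ := by omega
  obtain ⟨N, hN⟩ := prm ℓ (by omega) G
  -- the number of the rows
  let P : Set (G → ℂ) := {χ | χ ∈ IrrE M e ∧ ∀ g, χ (g ^ N) = χ g}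
  have hPf : P.Finite := (irrE_fin M e).subset fun _ h => h.1
  have hcard : P.ncard = ln e := by
    have h1 := fix ℓ M hM G N hN e hL.blk.1
      (fun y hy1 hy b hb he g hg => nst ℓ M hM G N hN e V γ hL hEl y hy1 hy b hb he g hg)
    have h2 := lrk ℓ M hM G e hL.blk.1
    rw [← h2] at h1
    exact_mod_cast h1
  -- the columns
  let R : Finset G := (Set.toFinite {u | Rg V γ u}).toFinset
  have hR : ∀ u, u ∈ R ↔ Rg V γ u := by
    intro u
    simp [R]
  have hRc : R.card = {u | Rg V γ u}.ncard := by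
    rw [Set.ncard_eq_toFinset_card _ (Set.toFinite _)]
  have hex : ∀ u : G, ∃ b : G → FF M, ∃ d : ℕ, Rg V γ u →
      (Lc e V γ u b ∧ Dg M (fun t : Cu u => b t) d) := by
    intro u
    by_cases hu : Rg V γ u
    · obtain ⟨b, d, h1, h2, -, -⟩ := rgl ℓ M hM G e V γ hL u hu
      exact ⟨b, d, fun _ => ⟨h1, h2⟩⟩
    · exact ⟨0, 0, fun h => absurd h hu⟩
  choose b d hbd using hex
  have hElu : ∀ u, Rg V γ u → El ℓ u := by
    intro u hu
    obtain ⟨n, hn⟩ := hL.tp.pg ⟨u, hu.1⟩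
    exact ⟨n, congrArg Subtype.val hn⟩
  have hex2 : ∀ (χ : G → ℂ) (u : G), ∃ z : ℤ, χ ∈ P → Rg V γ u →
      gv M (Cu u) u (b u) χ = d u * z := by
    intro χ u
    by_cases hu : Rg V γ u
    · by_cases hχ : χ ∈ P
      · obtain ⟨z, hz⟩ := rin ℓ M hM G N hN u (hElu u hu) (b u) (hbd u hu).1.blk.ix (d u)
          (hbd u hu).2 χ hχ.1.1 hχ.2
        exact ⟨z, fun _ _ => hz⟩
      · exact ⟨0, fun h => absurd h hχ⟩
    · exact ⟨0, fun _ h => absurd h hu⟩
  choose z hz using hex2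
  obtain ⟨ε, hε, hcong⟩ := cgz ℓ M hM G e V γ hL
  have hd : ∀ u, Rg V γ u → 0 < d u := fun u hu => (hbd u hu).2.1
  haveI : Fintype P := hPf.fintype
  let a : P → {u // u ∈ R} → ℤ := fun χ u => ε u * z χ u
  have hε2 : ∀ u, ε u ^ 2 = 1 := by
    intro u
    rcases hε u with h | h <;> rw [h] <;> norm_num
  have ha0 : ∀ r i, a r i ≠ 0 := by
    rintro ⟨χ, hχ⟩ ⟨u, hu⟩ h
    have hu' := (hR u).1 hu
    obtain ⟨hb, hdg⟩ := hbd u hu'
    have h1 := lsb ℓ M hM G e V γ hL u hu'.1 (b u) hb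
    have h2 := nz ℓ M hM G e hL.blk V hL.tp hL.ab u hu'.1 (fun t : Cu u => b u t) hb.blk.blk hb.und
      h1.1.tp.gd u (Subgroup.mem_zpowers u) χ hχ.1
    apply h2
    change gv M (Cu u) u (b u) χ = 0
    rw [hz χ u hχ hu']
    have h3 : z χ u = 0 := by
      have h4 : ε u * z χ u = 0 := h
      rcases mul_eq_zero.1 h4 with h5 | h5
      · exfalso
        rcases hε u with h6 | h6 <;> rw [h6] at h5 <;> norm_num at h5
      · exact h5
    rw [h3]
    simp
  have hadv : ∀ r i i', (ℓ : ℤ) ∣ a r i - a r i' := by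
    rintro ⟨χ, hχ⟩ ⟨u, hu⟩ ⟨u', hu'⟩
    have h1 := (hR u).1 hu
    have h2 := (hR u').1 hu'
    exact hcong u u' h1 h2 (b u) (b u') (hbd u h1).1 (hbd u' h2).1 (d u) (d u') (hbd u h1).2
      (hbd u' h2).2 χ hχ.1 (z χ u) (z χ u') (hz χ u hχ h1) (hz χ u' hχ h2)
  set K := ix V γ * Nat.card V with hK
  have hcnt := cnt ℓ (FF M) hF G e V γ hL hV h5 h3
  rw [← hK, ← hRc] at hcnt
  have hbes : ∀ s : P → ℤ, ∑ i, (∑ r, s r * a r i) ^ 2 ≤ K * ∑ r, s r ^ 2 := by
    intro s
    let S : (G → ℂ) → ℂ := fun χ => if h : χ ∈ P then (s ⟨χ, h⟩ : ℂ) else 0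
    have hb := brg ℓ M hM G e V γ hL R hR b d (fun u hu => hbd u ((hR u).1 hu)) S
    rw [← hK] at hb
    have hPI : P ⊆ Irr G := fun χ h => h.1.1
    have key : ∀ f : (G → ℂ) → ℂ, ∑ᶠ χ ∈ Irr G, S χ * f χ = ∑ r : P, (s r : ℂ) * f r := by
      intro f
      have h1 : ∑ᶠ χ ∈ Irr G, S χ * f χ = ∑ᶠ χ ∈ P, S χ * f χ := by
        refine (finsum_mem_inter_support_eq _ _ _ ?_)
        ext χ
        simp only [Set.mem_inter_iff, Function.mem_support]
        constructor
        · rintro ⟨-, h2⟩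
          refine ⟨?_, h2⟩
          by_contra h3
          apply h2
          simp only [S, dif_neg h3, zero_mul]
        · rintro ⟨h2, h3⟩
          exact ⟨hPI h2, h3⟩
      rw [h1, finsum_mem_fintype]
      refine Finset.sum_congr rfl fun r _ => ?_
      simp only [S]
      rw [dif_pos r.2]
    have keyn : ∑ᶠ χ ∈ Irr G, Complex.normSq (S χ) = ∑ r : P, (s r : ℝ) ^ 2 := by
      have h1 : ∑ᶠ χ ∈ Irr G, Complex.normSq (S χ) = ∑ᶠ χ ∈ P, Complex.normSq (S χ) := by
        refine (finsum_mem_inter_support_eq _ _ _ ?_)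
        ext χ
        simp only [Set.mem_inter_iff, Function.mem_support]
        constructor
        · rintro ⟨-, h2⟩
          refine ⟨?_, h2⟩
          by_contra h3
          apply h2
          simp only [S, dif_neg h3, map_zero]
        · rintro ⟨h2, h3⟩
          exact ⟨hPI h2, h3⟩
      rw [h1, ← finsum_set_coe_eq_finsum_mem, finsum_eq_sum_of_fintype]
      refine Finset.sum_congr rfl fun r _ => ?_
      simp only [S]
      rw [dif_pos r.2]
      have : ((s r : ℤ) : ℂ) = (((s r : ℤ) : ℝ) : ℂ) := by push_cast; rfl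
      rw [this, Complex.normSq_ofReal, sq]
    rw [keyn] at hb
    have hterm : ∀ u ∈ R, Complex.normSq (∑ᶠ χ ∈ Irr G, S χ *
        (gv M (Cu u) u (b u) χ / d u)) = (((∑ r : P, s r * (ε u * z r u)) ^ 2 : ℤ) : ℝ) := by
      intro u hu
      have hu' := (hR u).1 hu
      rw [key]
      have hd0 : (d u : ℂ) ≠ 0 := by exact_mod_cast (hd u hu').ne'
      have h1 : ∀ r : P, (s r : ℂ) * (gv M (Cu u) u (b u) r / d u) = ((s r * z r u : ℤ) : ℂ) := by
        intro r
        rw [hz r u r.2 hu', mul_div_cancel_left₀ _ hd0]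
        push_cast
        rfl
      simp only [h1]
      have h2 : ∑ r : P, s r * (ε u * z r u) = ε u * ∑ r : P, s r * z r u := by
        rw [Finset.mul_sum]
        exact Finset.sum_congr rfl fun r _ => by ring
      rw [h2, mul_pow, hε2, one_mul]
      have h3 : ∑ r : P, ((s r * z r u : ℤ) : ℂ) = (((∑ r : P, s r * z r u : ℤ) : ℝ) : ℂ) := by
        push_cast
        rfl
      rw [h3, Complex.normSq_ofReal]
      push_cast
      ring
    rw [Finset.sum_congr rfl hterm] at hb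
    have h5 : ((∑ u ∈ R, (∑ r : P, s r * (ε u * z r u)) ^ 2 : ℤ) : ℝ) ≤
        ((K * ∑ r : P, s r ^ 2 : ℤ) : ℝ) := by
      push_cast
      push_cast at hb
      exact hb
    have h6 : ∑ u ∈ R, (∑ r : P, s r * (ε u * z r u)) ^ 2 ≤ K * ∑ r : P, s r ^ 2 := by
      exact_mod_cast h5
    rw [← Finset.sum_coe_sort] at h6
    exact h6
  have hari := ari ℓ K P {u // u ∈ R} a (by omega) (hp.odd_of_ne_two (by omega))
    (by rw [Fintype.card_coe]; exact hcnt) ha0 hadv hbes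
  rw [Fintype.card_coe] at hari
  have hPc : Fintype.card P = ln e := by
    rw [← hcard, ← Nat.card_coe_set_eq, Nat.card_eq_fintype_card]
  rw [hPc] at hari
  by_contra hcon
  have h7 : ℓ ≤ 2 * ln e := by omega
  have h8 : ℓ * R.card ≤ 2 * ln e * R.card := Nat.mul_le_mul_right _ h7
  have h9 : 2 * ln e * R.card ≤ 2 * K := by
    rw [mul_assoc]
    exact Nat.mul_le_mul_left _ hari
  omega

end Pool.Agent.PP.T3.H49
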