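import Pool.Agent.AT3.Stmts1

/-! Squad AT3, row PRM: existence of the exponent `N`. -/

open scoped BigOperators

noncomputable section

namespace Pool.Agent.PP.T3.H49

open Pool.Agent.Helper51_AWC Pool.Agent.Helper79_WRA Pool.Agent.PP Pool.Agent.PP.KF
open Pool.Agent.PP.K9 Pool.Agent.PP.K9.H97 Pool.Agent.PP.H75

theorem prm : PrmStmt := by
  intro ℓ hℓ hℓ2 G _ _
  have hp : ℓ.Prime := hℓ.out
  set n := Nat.card G with hn
  have hn0 : n ≠ 0 := Nat.card_pos.ne'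
  set a := n.factorization ℓ with ha
  set m := n / ℓ ^ a with hm
  have hnm : ℓ ^ a * m = n := Nat.ordProj_mul_ordCompl_eq_self n ℓ
  have hcop : Nat.Coprime ℓ m := Nat.coprime_ordCompl hp hn0
  have hc2 : Nat.Coprime (ℓ ^ (a + 1)) m := Nat.Coprime.pow_left _ hcop
  haveI : NeZero (ℓ ^ (a + 1)) := ⟨pow_ne_zero _ hp.ne_zero⟩
  haveI : NeZero ℓ := ⟨hp.ne_zero⟩
  haveI := ZMod.isCyclic_units_of_prime_pow ℓ hp hℓ2 (a + 1)
  obtain ⟨t, ht⟩ := IsCyclic.exists_generator (α := (ZMod (ℓ ^ (a + 1)))ˣ)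
  obtain ⟨N, hN1, hN2⟩ := Nat.chineseRemainder hc2 (t : ZMod (ℓ ^ (a + 1))).val 1
  have hNt : ((N : ℕ) : ZMod (ℓ ^ (a + 1))) = t := by
    have := (ZMod.natCast_eq_natCast_iff _ _ _).2 hN1
    rw [this, ZMod.natCast_zmod_val]
  have hNl : Nat.Coprime N (ℓ ^ (a + 1)) := by
    rw [← ZMod.isUnit_iff_coprime, hNt]
    exact t.isUnit
  have hNl1 : Nat.Coprime N ℓ := Nat.Coprime.coprime_dvd_right (dvd_pow_self ℓ (by omega)) hNl
  have hNm : Nat.Coprime N m := by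
    have := hN2.gcd_eq
    rw [Nat.gcd_one_left] at this
    exact this
  -- order of an element of order prime to ℓ
  refine ⟨N, ?_, ?_, ?_, ?_⟩
  · rw [← hn, ← hnm]
    exact Nat.Coprime.mul_right (Nat.Coprime.pow_right _ hNl1) hNm
  · intro g hg
    have h1 : orderOf g ∣ m := by
      have h2 : orderOf g ∣ ℓ ^ a * m := by
        rw [hnm]
        exact orderOf_dvd_natCard g
      exact (Nat.Coprime.pow_right a hg).dvd_of_dvd_mul_left h2
    have h2 : g ^ N = g ^ 1 := pow_eq_pow_iff_modEq.2 (hN2.of_dvd h1)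
    rw [h2, pow_one]
  · intro j hj
    have hjc : Nat.Coprime j (ℓ ^ (a + 1)) := by
      apply Nat.Coprime.pow_right
      exact ((Nat.Prime.coprime_iff_not_dvd hp).2 hj).symm
    obtain ⟨u, hu⟩ := (ZMod.isUnit_iff_coprime j (ℓ ^ (a + 1))).2 hjc
    obtain ⟨k, hk⟩ := (mem_powers_iff_mem_zpowers.2 (ht u))
    refine ⟨k, fun y hy => ?_⟩
    have h1 : N ^ k ≡ j [MOD ℓ ^ (a + 1)] := by
      rw [← ZMod.natCast_eq_natCast_iff, Nat.cast_pow, hNt, ← hu, ← hk]
      simp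
    have h2 : orderOf y ∣ ℓ ^ (a + 1) := by
      obtain ⟨i, hi⟩ := hy
      have h3 : orderOf y ∣ ℓ ^ i := orderOf_dvd_of_pow_eq_one hi
      have h4 : orderOf y ∣ ℓ ^ a * m := by
        rw [hnm]
        exact orderOf_dvd_natCard y
      have h5 : Nat.Coprime (orderOf y) m :=
        Nat.Coprime.coprime_dvd_left h3 (Nat.Coprime.pow_left _ hcop)
      exact (h5.dvd_of_dvd_mul_right h4).trans (pow_dvd_pow _ (by omega))
    exact pow_eq_pow_iff_modEq.2 (h1.of_dvd h2)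
  · intro k hk0 hk h
    have hd : ℓ ∣ ℓ ^ (a + 1) := dvd_pow_self ℓ (by omega)
    have hs := ZMod.unitsMap_surjective hd
    have hgen : ∀ x : (ZMod ℓ)ˣ, x ∈ Subgroup.zpowers (ZMod.unitsMap hd t) := by
      intro x
      obtain ⟨y, rfl⟩ := hs x
      obtain ⟨i, hi⟩ := ht y
      refine ⟨i, ?_⟩
      rw [← hi]
      simp
    have ho : orderOf (ZMod.unitsMap hd t) = ℓ - 1 := by
      rw [orderOf_eq_card_of_forall_mem_zpowers hgen, Nat.card_eq_fintype_card, ZMod.card_units]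
    have h1 : (ZMod.unitsMap hd t) ^ k = 1 := by
      ext
      rw [Units.val_pow_eq_pow_val, Units.val_one]
      have h2 : ((ZMod.unitsMap hd t : (ZMod ℓ)ˣ) : ZMod ℓ) = (N : ZMod ℓ) := by
        rw [ZMod.unitsMap_val, ← hNt]
        simp
      rw [h2, ← Nat.cast_pow, ← Nat.cast_one]
      exact (ZMod.natCast_eq_natCast_iff _ _ _).2 h
    have h3 : ℓ - 1 ∣ k := by
      rw [← ho]
      exact orderOf_dvd_of_pow_eq_one h1
    have := Nat.le_of_dvd hk0 h3
    omega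

end Pool.Agent.PP.T3.H49
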